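import Pool.Agent.R179.MobM
import Pool.Agent.H242R3.ES.Full
import Pool.Agent.H454R3.ES.Trans
import Pool.Agent.H841.ES.K8a
import Pool.Agent.U251.Mob120.K8b

/-!
# Edge-scribed convex 4-polytopes (of any combinatorial type) are Möbius unique

The rigidity theorem `MainG` of the library (Lorentz form) is translated into the language of
ball-arrangement projections and Möbius transformations.
-/

set_option autoImplicit false
set_option linter.unusedSectionVars false

namespace Pool.Agent.U251.Mob120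

open R179.Mob Finset Module

open Pool.Agent.H242R3.ES (LV Face GQ MainG GenV)

theorem mainG : ∀ D, 3 ≤ D → MainG D :=
  Pool.Agent.H242R3.ES.main_of Pool.Agent.H603R3.ESG1.t Pool.Agent.H856R3.ESG2.t
    Pool.Agent.H242R3.ES.G3H78.t Pool.Agent.H242R3.ES.Full.g5 Pool.Agent.H242R3.ES.Full.g7
    Pool.Agent.H242R3.ES.Full.genV Pool.Agent.H146R3.ES.P1G.t Pool.Agent.H242R3.ES.Full.p7
    (Pool.Agent.H242R3.ES.Full.main3 Pool.Agent.H841.ESK8a.t Pool.Agent.U251.Mob120.K8b.t)
    Pool.Agent.H242R3.ES.Full.stepV Pool.Agent.H318R3.ES.projV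
    Pool.Agent.H780R3.ES.N14.t Pool.Agent.H885R3.ESN15.taskN15 Pool.Agent.H722R5.ES.N16.t

/-- homogeneous coordinates -/
noncomputable def ph : L5 ≃ₗ[ℝ] LV 4 where
  toFun x := fun o => Option.elim o x.2 (fun i => x.1 i)
  invFun y := (WithLp.toLp 2 (fun i => y (some i)), y none)
  map_add' x y := by
    funext o; cases o <;> simp
  map_smul' c x := by
    funext o; cases o <;> simp
  left_inv x := by
    apply Prod.ext
    · ext i; simp
    · rfl
  right_inv y := by
    funext o; cases o <;> simp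

theorem ph_none (x : L5) : ph x none = x.2 := rfl
theorem ph_some (x : L5) (i : Fin 4) : ph x (some i) = x.1 i := rfl

theorem B_ph (x y : L5) : Pool.Agent.H242R3.ES.B (ph x) (ph y) = B x y := by
  unfold Pool.Agent.H242R3.ES.B
  rw [B_apply, PiLp.inner_apply, ph_none, ph_none]
  congr 1
  apply Finset.sum_congr rfl
  intro i _
  rw [ph_some, ph_some]
  simp [mul_comm]

variable {ι : Type} [Fintype ι] [DecidableEq ι]

/-- faces of the cone -/
theorem face_iff (u : ι → L5) (F : Finset ι) : Face u (F : Set ι) ↔ Fc u F := by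
  constructor
  · rintro ⟨l, h1, h2⟩
    exact ⟨l, h1, fun i => by rw [← h2 i]; simp⟩
  · rintro ⟨l, h1, h2⟩
    exact ⟨l, h1, fun i => by rw [h2 i]; simp⟩

theorem face_ph (u : ι → L5) (S : Set ι) : Face (fun i => ph (u i)) S ↔ Face u S := by
  constructor
  · rintro ⟨l, h1, h2⟩
    exact ⟨l ∘ₗ (ph : L5 →ₗ[ℝ] LV 4), h1, h2⟩
  · rintro ⟨l, h1, h2⟩
    refine ⟨l ∘ₗ (ph.symm : LV 4 →ₗ[ℝ] L5), fun i => ?_, fun i => ?_⟩
    · simpa using h1 i
    · simpa using h2 i

theorem vinj {v : ι → E4} (hv : IsPolytope v) : ∀ i j, i ≠ j → v i ≠ v j := by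
  intro i j hij h
  obtain ⟨f, c, h1, h2⟩ := hv.vertex i
  have h3 : inner ℝ f (v i) = c := (h2 i).2 (mem_singleton_self i)
  rw [h] at h3
  exact hij (mem_singleton.1 ((h2 j).1 h3)).symm

/-- every vertex lies on an edge -/
theorem exists_edge {v : ι → E4} (hv : IsPolytope v) (i : ι) : ∃ j, IsEdge v i j := by
  classical
  have hr1 : ∀ i : ι, (0:ℝ) < 1 := fun _ => one_pos
  have hsp1 := span_hat hv.full hr1
  set u : ι → L5 := fun i => (1:ℝ) • ((v i, 1) : L5) with hu
  have hF : ∀ F : Finset ι, Face u (F : Set ι) ↔ IsFace v F := fun F =>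
    (face_iff u F).trans (Fc_iff hr1 F)
  have hvert : ∀ k, Face u {k} := by
    intro k
    have := (hF {k}).2 (hv.vertex k)
    simpa using this
  obtain ⟨k, hk⟩ : ∃ k : ι, k ≠ i := by
    by_contra hcon
    push Not at hcon
    have hc : Set.range u = {u i} := by
      ext x
      constructor
      · rintro ⟨j, rfl⟩; rw [hcon j]; rfl
      · rintro rfl; exact ⟨i, rfl⟩
    have hx0 : u i ≠ 0 := by
      intro h0
      have := congrArg Prod.snd h0
      simp [hu] at this
    have h1 := finrank_span_singleton (K := ℝ) hx0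
    rw [← hc, hsp1, finrank_top, finrank_L5] at h1
    norm_num at h1
  obtain ⟨y, a, -, ha, hka⟩ := Pool.Agent.H242R3.ES.Full.genV ι L5 u hvert i Set.univ
    ⟨0, fun _ => le_rfl, fun i => by simp⟩ (Set.mem_univ i) k (Set.mem_univ k)
  by_cases hall : ∀ l, a l = 0
  · exfalso
    have h1 : u k = y • u i := by
      rw [hka]; simp [hall]
    have h2 : (1:ℝ) = y := by
      have := congrArg Prod.snd h1
      simpa [hu] using this
    have h3 : v k = v i := by
      have := congrArg Prod.fst h1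
      rw [← h2] at this
      simpa [hu] using this
    exact vinj hv k i hk h3
  · push Not at hall
    obtain ⟨l, hl⟩ := hall
    obtain ⟨-, hli, hf⟩ := ha l hl
    refine ⟨l, hli.symm, ?_⟩
    rw [← hF]
    simpa using hf

theorem big {v : ι → E4} (hv : IsPolytope v) (hs : EdgeScribed v) (i : ι) : 1 < ‖v i‖ ^ 2 := by
  obtain ⟨j, hij⟩ := exists_edge hv i
  obtain ⟨x, hx, h1, h2⟩ := hs i j hij
  exact (tangent_calc hx h1 h2 (vinj hv i j hij.1)).1

/-- the normalised Lorentz vectors -/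
noncomputable def nu (v : ι → E4) (i : ι) : L5 := (Real.sqrt (‖v i‖ ^ 2 - 1))⁻¹ • ((v i, 1) : L5)

theorem rho_pos {v : ι → E4} (hv : IsPolytope v) (hs : EdgeScribed v) (i : ι) :
    0 < Real.sqrt (‖v i‖ ^ 2 - 1) := Real.sqrt_pos.2 (by linarith [big hv hs i])

theorem nu_self {v : ι → E4} (hv : IsPolytope v) (hs : EdgeScribed v) (i : ι) :
    B (nu v i) (nu v i) = 1 := by
  have h1 : Real.sqrt (‖v i‖ ^ 2 - 1) ^ 2 = ‖v i‖ ^ 2 - 1 :=
    Real.sq_sqrt (by linarith [big hv hs i])
  unfold nu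
  rw [map_smul, map_smul, LinearMap.smul_apply, B_apply, smul_eq_mul, smul_eq_mul,
    real_inner_self_eq_norm_sq]
  have := (rho_pos hv hs i).ne'
  field_simp
  rw [h1]

theorem nu_edge {v : ι → E4} (hv : IsPolytope v) (hs : EdgeScribed v) {i j : ι}
    (hij : IsEdge v i j) : B (nu v i) (nu v j) = -1 := by
  obtain ⟨x, hx, h1, h2⟩ := hs i j hij
  have h3 := (tangent_calc hx h1 h2 (vinj hv i j hij.1)).2.2
  unfold nu
  rw [map_smul, map_smul, LinearMap.smul_apply, B_apply, smul_eq_mul, smul_eq_mul]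
  have hi0 := (rho_pos hv hs i).ne'
  have hj0 := (rho_pos hv hs j).ne'
  simp only [mul_one]
  rw [h3]
  field_simp

theorem face_nu {v : ι → E4} (hv : IsPolytope v) (hs : EdgeScribed v) (F : Finset ι) :
    Face (fun i => ph (nu v i)) (F : Set ι) ↔ IsFace v F := by
  rw [face_ph, face_iff]
  exact Fc_iff (fun i => inv_pos.2 (rho_pos hv hs i)) F

theorem gq {v : ι → E4} (hv : IsPolytope v) (hs : EdgeScribed v) :
    GQ 4 (fun i => ph (nu v i)) := by
  classical
  refine ⟨fun i => ?_, ⟨ph (0, 1), ?_, fun i => ?_⟩, fun i => ?_, fun i j hij hf => ?_, ?_⟩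
  · rw [B_ph, nu_self hv hs]
  · rw [B_ph, B_apply]; simp
  · rw [B_ph, B_apply]
    have := rho_pos hv hs i
    simp only [nu, Prod.smul_fst, Prod.smul_snd, inner_zero_right, smul_eq_mul, mul_one, zero_sub]
    have := inv_pos.2 this
    linarith
  · have := (face_nu hv hs {i}).2 (hv.vertex i)
    simpa using this
  · rw [B_ph]
    apply nu_edge hv hs
    refine ⟨hij, ?_⟩
    rw [← face_nu hv hs]
    simpa using hf
  · have h1 := span_hat hv.full (fun i => inv_pos.2 (rho_pos hv hs i))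
    have h2 : Set.range (fun i => ph (nu v i)) = ph '' Set.range (nu v) := by
      rw [← Set.range_comp]; rfl
    rw [h2]
    have h3 : Submodule.span ℝ (ph '' Set.range (nu v)) =
        (Submodule.span ℝ (Set.range (nu v))).map (ph : L5 →ₗ[ℝ] LV 4) := by
      rw [Submodule.map_span]; rfl
    rw [h3]
    have h4 : Submodule.span ℝ (Set.range (nu v)) = ⊤ := h1
    rw [h4, Submodule.map_top, LinearMap.range_eq_top]
    exact ph.surjective

/-- Möbius uniqueness, same index set -/
theorem unique_same {v w : ι → E4} (hv : IsPolytope v) (hw : IsPolytope w)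
    (hvs : EdgeScribed v) (hws : EdgeScribed w) (hF : ∀ F, IsFace v F ↔ IsFace w F) :
    ∃ μ, IsMoebius μ ∧ ∀ i, μ '' ball (v i) = ball (w i) := by
  classical
  have hfaces : ∀ S : Set ι, Face (fun i => ph (nu v i)) S ↔ Face (fun i => ph (nu w i)) S := by
    intro S
    have h1 := face_nu hv hvs S.toFinset
    have h2 := face_nu hw hws S.toFinset
    rw [Set.coe_toFinset] at h1 h2
    rw [h1, h2, hF]
  obtain ⟨T, hT1, hT2⟩ := mainG 4 (by norm_num) ι _ _ (gq hv hvs) (gq hw hws) hfaces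
  -- the isometry of `L5`
  let A₀ : L5 →ₗ[ℝ] L5 := (ph.symm : LV 4 →ₗ[ℝ] L5) ∘ₗ T ∘ₗ (ph : L5 →ₗ[ℝ] LV 4)
  have hA₀ : ∀ x y, B (A₀ x) (A₀ y) = B x y := by
    intro x y
    have h1 : ∀ x, ph (A₀ x) = T (ph x) := fun x => by simp [A₀]
    rw [← B_ph, h1, h1, hT1, B_ph]
  have hinj : Function.Injective A₀ := by
    rw [injective_iff_map_eq_zero]
    intro x hx
    apply B_nondeg
    intro y
    rw [← hA₀, hx]; simp
  let A : L5 ≃ₗ[ℝ] L5 := LinearEquiv.ofInjectiveEndo A₀ hinj
  have hAA : ∀ x, A x = A₀ x := fun x => rfl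
  have hA : ∀ x y, B (A x) (A y) = B x y := hA₀
  have hAi : ∀ i, A (nu v i) = nu w i := by
    intro i
    rw [hAA]
    have h1 : T (ph (nu v i)) = ph (nu w i) := hT2 i
    simp [A₀, h1]
  have hne : Nonempty ι := by
    by_contra h
    rw [not_nonempty_iff] at h
    have h1 := hv.full
    rw [Set.range_eq_empty] at h1
    simp at h1
  obtain ⟨i0⟩ := hne
  obtain ⟨j0, hij⟩ := exists_edge hv i0
  have hρv : ∀ i, 0 < (Real.sqrt (‖v i‖ ^ 2 - 1))⁻¹ := fun i => inv_pos.2 (rho_pos hv hvs i)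
  have hρw : ∀ i, 0 < (Real.sqrt (‖w i‖ ^ 2 - 1))⁻¹ := fun i => inv_pos.2 (rho_pos hw hws i)
  have he : 0 < (A (0, 1)).2 := by
    apply time_preserved hA (N := nu v i0 + nu v j0)
    · have h1 := nu_self hv hvs i0
      have h2 := nu_self hv hvs j0
      have h3 := nu_edge hv hvs hij
      have h4 : B (nu v j0) (nu v i0) = -1 := by rw [B_comm]; exact h3
      simp only [map_add, LinearMap.add_apply]
      rw [h1, h2, h3, h4]; norm_num
    · have := hρv i0
      have := hρv j0
      simp only [nu, Prod.snd_add, Prod.smul_snd, smul_eq_mul, mul_one]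
      positivity
    · rw [map_add, hAi, hAi]
      have := hρw i0
      have := hρw j0
      simp only [nu, Prod.snd_add, Prod.smul_snd, smul_eq_mul, mul_one]
      positivity
  obtain ⟨μ, hμ, hact⟩ := gen_lorentz (A := (A : L5 →ₗ[ℝ] L5)) hA he
  exact ⟨μ, hμ, fun i => ball_image hA he hact (hρv i) (hρw i) (hAi i)⟩

/-- Möbius uniqueness of all combinatorial types of edge-scribable 4-polytopes -/
theorem unique_all {ι κ : Type} [Fintype ι] [DecidableEq ι] [Fintype κ] [DecidableEq κ]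
    {v : ι → E4} {w : κ → E4} (hv : IsPolytope v) (hw : IsPolytope w)
    (hvs : EdgeScribed v) (hws : EdgeScribed w) (e : ι ≃ κ)
    (he : ∀ F : Finset ι, IsFace v F ↔ IsFace w (F.map e.toEmbedding)) :
    ∃ μ, IsMoebius μ ∧ (∀ i, μ '' ball (v i) = ball (w (e i))) ∧
      (fun b => μ '' b) '' Set.range (fun i => ball (v i)) = Set.range (fun k => ball (w k)) := by
  obtain ⟨μ, hμ, h⟩ := unique_same hv (isPolytope_comp hw e) hvs (edgeScribed_comp hws e)
    (fun F => by rw [he, isFace_comp])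
  refine ⟨μ, hμ, h, ?_⟩
  ext b
  constructor
  · rintro ⟨_, ⟨i, rfl⟩, rfl⟩
    exact ⟨e i, (h i).symm⟩
  · rintro ⟨k, rfl⟩
    refine ⟨_, ⟨e.symm k, rfl⟩, ?_⟩
    have := h (e.symm k)
    simp only [Equiv.apply_symm_apply] at this
    exact this

end Pool.Agent.U251.Mob120
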